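import Mathlib

/-!
# Denser P-position sets for extensions of the AP-avoiding heap game

Every set `A` without 3-term progressions that contains `0, 1` but no other pair of consecutive
integers is the set of P-positions of an extension of `M₀`. A union of dilated and translated
Behrend sets at geometrically growing places is such a set.
-/

set_option autoImplicit false

namespace Pool.Agent.Results.MP_c84e26_co.DenseExtension

open Filter Topology

/-- A ruleset: a set of finite nonempty sets of positive integers. -/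
def IsRuleset (R : Set (Finset ℕ)) : Prop := ∀ M ∈ R, M.Nonempty ∧ ∀ m ∈ M, 0 < m

/-- The base ruleset. -/
def M₀ : Set (Finset ℕ) := {M | ∃ d : ℕ, 1 ≤ d ∧ M = {d, 2 * d}}

/-- The extensions of the base ruleset. -/
def IsExtension (R : Set (Finset ℕ)) : Prop := ∃ M' : Set (Finset ℕ), IsRuleset M' ∧ R = M₀ ∪ M'

/-- `n` lies in the set `A_R` of P-positions. -/
def IsP (R : Set (Finset ℕ)) (n : ℕ) : Prop :=
  ¬ ∃ M ∈ R, (∀ m ∈ M, m ≤ n) ∧ ∀ m ∈ M, 0 < m → m ≤ n → IsP R (n - m)
termination_by n
decreasing_by omega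

/-- `A_R(x) = #{i ∈ A_R : i < x}`. -/
noncomputable def count (R : Set (Finset ℕ)) (x : ℕ) : ℕ := {i : ℕ | i < x ∧ IsP R i}.ncard

open Classical in
/-- The extra moves realising a set `A`. -/
noncomputable def extra (A : Set ℕ) : Set (Finset ℕ) :=
  {M | ∃ n, n ∉ A ∧ M = ((Finset.range n).filter (· ∈ A)).image fun a => n - a}

/-- Realisation of `A` as a set of P-positions. -/
theorem realise {A : Set ℕ} (h0 : 0 ∈ A) (h1 : 1 ∈ A) (hap : ThreeAPFree A)
    (hc : ∀ a, a ∈ A → a + 1 ∈ A → a = 0) :
    IsRuleset (extra A) ∧ ∀ n, IsP (M₀ ∪ extra A) n ↔ n ∈ A := by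
  classical
  have hmem : ∀ n, n ∉ A → 2 ≤ n := by
    intro n hn
    by_contra h
    have : n = 0 ∨ n = 1 := by omega
    rcases this with rfl | rfl
    · exact hn h0
    · exact hn h1
  refine ⟨?_, fun n => ?_⟩
  · rintro M ⟨n, hn, rfl⟩
    have h2 := hmem n hn
    refine ⟨⟨n, ?_⟩, ?_⟩
    · rw [Finset.mem_image]
      exact ⟨0, by rw [Finset.mem_filter, Finset.mem_range]; exact ⟨by omega, h0⟩, by omega⟩
    · intro m hm
      rw [Finset.mem_image] at hm
      obtain ⟨a, ha, rfl⟩ := hm
      rw [Finset.mem_filter, Finset.mem_range] at ha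
      omega
  · induction n using Nat.strong_induction_on with
    | _ n ih =>
      rw [IsP]
      constructor
      · intro h
        by_contra hn
        apply h
        refine ⟨_, Or.inr ⟨n, hn, rfl⟩, ?_, ?_⟩
        · intro m hm
          rw [Finset.mem_image] at hm
          obtain ⟨a, -, rfl⟩ := hm
          omega
        · intro m hm hm0 hmn
          rw [Finset.mem_image] at hm
          obtain ⟨a, ha, rfl⟩ := hm
          rw [Finset.mem_filter, Finset.mem_range] at ha
          rw [ih _ (by omega)]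
          rw [show n - (n - a) = a by omega]
          exact ha.2
      · rintro hn ⟨M, hM | hM, hle, hP⟩
        · obtain ⟨d, hd, rfl⟩ := hM
          have h2 := hle (2 * d) (by simp)
          have h3 := (ih _ (by omega)).1 (hP d (by simp) (by omega) (by omega))
          have h4 := (ih _ (by omega)).1 (hP (2 * d) (by simp) (by omega) (by omega))
          have h5 := hap h4 h3 hn (by omega)
          omega
        · obtain ⟨k, hk, rfl⟩ := hM
          have h2 := hmem k hk
          have hk1 : k ∈ ((Finset.range k).filter (· ∈ A)).image fun a => k - a := by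
            rw [Finset.mem_image]
            exact ⟨0, by rw [Finset.mem_filter, Finset.mem_range]; exact ⟨by omega, h0⟩, by omega⟩
          have hk2 : k - 1 ∈ ((Finset.range k).filter (· ∈ A)).image fun a => k - a := by
            rw [Finset.mem_image]
            exact ⟨1, by rw [Finset.mem_filter, Finset.mem_range]; exact ⟨by omega, h1⟩, by omega⟩
          have h3 := hle _ hk1
          have h4 := (ih _ (by omega)).1 (hP _ hk1 (by omega) (by omega))
          have h5 := (ih _ (by omega)).1 (hP _ hk2 (by omega) (by omega))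
          have h6 := hc (n - k) h4 (by rwa [show n - k + 1 = n - (k - 1) by omega])
          have h7 : n = k := by omega
          exact hk (h7 ▸ hn)

/-- A large set without 3-term progressions below `16 ^ (k + 1)`. -/
theorem exists_S (k : ℕ) : ∃ t : Finset ℕ, t ⊆ Finset.range (16 ^ (k + 1)) ∧
    t.card = rothNumberNat (16 ^ (k + 1)) ∧ ThreeAPFree (t : Set ℕ) :=
  rothNumberNat_spec _

/-- The chosen progression-free sets. -/
noncomputable def S (k : ℕ) : Finset ℕ := (exists_S k).choose

theorem S_lt {k s : ℕ} (h : s ∈ S k) : s < 16 ^ (k + 1) :=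
  Finset.mem_range.1 ((exists_S k).choose_spec.1 h)

theorem S_card (k : ℕ) : (S k).card = rothNumberNat (16 ^ (k + 1)) := (exists_S k).choose_spec.2.1

theorem S_free (k : ℕ) : ThreeAPFree (S k : Set ℕ) := (exists_S k).choose_spec.2.2

/-- The dense set. -/
def A : Set ℕ := {n | n = 0 ∨ n = 1 ∨ ∃ k, ∃ s ∈ S k, n = 4 * 16 ^ (k + 1) + 2 * s}

theorem A_cases {n : ℕ} (h : n ∈ A) : n < 2 ∨ ∃ k, ∃ s ∈ S k, n = 4 * 16 ^ (k + 1) + 2 * s ∧
    4 * 16 ^ (k + 1) ≤ n ∧ n < 6 * 16 ^ (k + 1) := by
  rcases h with rfl | rfl | ⟨k, s, hs, rfl⟩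
  · left; norm_num
  · left; norm_num
  · right
    have := S_lt hs
    exact ⟨k, s, hs, rfl, by omega, by omega⟩

theorem block_lt {k l : ℕ} (h : k < l) : 16 * 16 ^ (k + 1) ≤ 16 ^ (l + 1) := by
  calc 16 * 16 ^ (k + 1) = 16 ^ (k + 1 + 1) := by ring
    _ ≤ 16 ^ (l + 1) := Nat.pow_le_pow_right (by norm_num) (by omega)

theorem A_consecutive (a : ℕ) (h : a ∈ A) (h' : a + 1 ∈ A) : a = 0 := by
  rcases A_cases h with h1 | ⟨k, s, hs, e1, e2, e3⟩
  · rcases A_cases h' with h2 | ⟨l, s', hs', e1', e2', e3'⟩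
    · omega
    · have : 16 ≤ 16 ^ (l + 1) := by
        calc 16 = 16 ^ 1 := by norm_num
          _ ≤ 16 ^ (l + 1) := Nat.pow_le_pow_right (by norm_num) (by omega)
      omega
  · rcases A_cases h' with h2 | ⟨l, s', hs', e1', e2', e3'⟩
    · omega
    · exfalso
      rcases lt_trichotomy k l with hkl | rfl | hkl
      · have := block_lt hkl
        omega
      · omega
      · have := block_lt hkl
        omega

theorem A_free : ThreeAPFree A := by
  -- enough: no x < y < z
  have key : ∀ x ∈ A, ∀ y ∈ A, ∀ z ∈ A, x < y → x + z = y + y → False := by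
    intro x hx y hy z hz hxy h
    have hpow : ∀ l, 16 ≤ 16 ^ (l + 1) := fun l => by
      calc 16 = 16 ^ 1 := by norm_num
        _ ≤ 16 ^ (l + 1) := Nat.pow_le_pow_right (by norm_num) (by omega)
    rcases A_cases hz with h1 | ⟨k, s, hs, e1, e2, e3⟩
    · omega
    rcases A_cases hy with h2 | ⟨l, t, ht, f1, f2, f3⟩
    · have := hpow k
      omega
    rcases lt_trichotomy k l with hkl | rfl | hkl
    · have := block_lt hkl
      omega
    · rcases A_cases hx with h3 | ⟨j, u, hu, g1, g2, g3⟩
      · have := hpow k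
        omega
      · rcases lt_trichotomy j k with hjk | rfl | hjk
        · have := block_lt hjk
          omega
        · have := S_free j hu ht hs (by omega)
          omega
        · have := block_lt hjk
          omega
    · have := block_lt hkl
      omega
  intro x hx y hy z hz h
  by_contra hne
  rcases lt_or_gt_of_ne hne with h1 | h1
  · exact key x hx y hy z hz h1 h
  · exact key z hz y hy x hx (by omega) (by omega)

/-- The ruleset. -/
noncomputable def R : Set (Finset ℕ) := M₀ ∪ extra A

theorem R_spec : IsRuleset (extra A) ∧ ∀ n, IsP R n ↔ n ∈ A :=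
  realise (Or.inl rfl) (Or.inr (Or.inl rfl)) A_free A_consecutive

theorem count_lower (k x : ℕ) (h : 6 * 16 ^ (k + 1) ≤ x) :
    rothNumberNat (16 ^ (k + 1)) ≤ count R x := by
  rw [← S_card k, count]
  have h1 : (((S k).image fun s => 4 * 16 ^ (k + 1) + 2 * s : Finset ℕ) : Set ℕ) ⊆
      {i : ℕ | i < x ∧ IsP R i} := by
    intro n hn
    simp only [Finset.coe_image, Set.mem_image, Finset.mem_coe] at hn
    obtain ⟨s, hs, rfl⟩ := hn
    have := S_lt hs
    exact ⟨by omega, (R_spec.2 _).2 (Or.inr (Or.inr ⟨k, s, hs, rfl⟩))⟩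
  have h2 : {i : ℕ | i < x ∧ IsP R i}.Finite :=
    (Set.finite_lt_nat x).subset fun i hi => hi.1
  have h3 := Set.ncard_le_ncard h1 h2
  rw [Set.ncard_coe_finset, Finset.card_image_of_injective _ (fun a b hab => by
    have : 4 * 16 ^ (k + 1) + 2 * a = 4 * 16 ^ (k + 1) + 2 * b := hab
    omega)] at h3
  exact h3

/-- The exponent. -/
noncomputable def β : ℝ := Real.log 2 / Real.log 3

theorem β_pos : 0 < β := div_pos (Real.log_pos (by norm_num)) (Real.log_pos (by norm_num))

theorem β_lt : β < 1 := by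
  rw [β, div_lt_one (Real.log_pos (by norm_num))]
  exact Real.log_lt_log (by norm_num) (by norm_num)

theorem growth (k x : ℕ) (h : 6 * 16 ^ (k + 1) ≤ x) (h' : x < 96 * 16 ^ (k + 1)) :
    Real.exp ((1 - β) * Real.log (16 ^ (k + 1)) - 4 * Real.sqrt (Real.log (16 ^ (k + 1))) -
      β * Real.log 96) ≤ (count R x : ℝ) / (x : ℝ) ^ β := by
  have hN : (0 : ℝ) < 16 ^ (k + 1) := by positivity
  have hx : (0 : ℝ) < x := by
    have : 0 < 16 ^ (k + 1) := by positivity
    exact_mod_cast (by omega : 0 < x)
  have h1 := Behrend.roth_lower_bound (N := 16 ^ (k + 1))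
  have h2 : ((rothNumberNat (16 ^ (k + 1)) : ℕ) : ℝ) ≤ count R x := by
    exact_mod_cast count_lower k x h
  rw [le_div_iff₀ (Real.rpow_pos_of_pos hx _)]
  refine le_trans ?_ (h1.trans h2)
  have h3 : (x : ℝ) ^ β ≤ (96 * 16 ^ (k + 1) : ℝ) ^ β :=
    Real.rpow_le_rpow hx.le (by exact_mod_cast h'.le) β_pos.le
  have h4 : (96 * 16 ^ (k + 1) : ℝ) ^ β =
      Real.exp (β * Real.log 96 + β * Real.log (16 ^ (k + 1))) := by
    rw [Real.rpow_def_of_pos (by positivity), Real.log_mul (by norm_num) hN.ne']
    congr 1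
    ring
  calc _ ≤ Real.exp ((1 - β) * Real.log (16 ^ (k + 1)) -
          4 * Real.sqrt (Real.log (16 ^ (k + 1))) - β * Real.log 96) *
        (96 * 16 ^ (k + 1) : ℝ) ^ β := mul_le_mul_of_nonneg_left h3 (Real.exp_pos _).le
    _ = Real.exp (Real.log (16 ^ (k + 1)) + (-4 * Real.sqrt (Real.log (16 ^ (k + 1))))) := by
        rw [h4, ← Real.exp_add]
        congr 1
        ring
    _ = _ := by
        rw [Real.exp_add, Real.exp_log hN]
        push_cast
        ring

theorem tendsto_aux : Tendsto (fun k : ℕ =>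
    (1 - β) * Real.log (16 ^ (k + 1)) - 4 * Real.sqrt (Real.log (16 ^ (k + 1))) -
      β * Real.log 96) atTop atTop := by
  have h1 : Tendsto (fun k : ℕ => Real.log ((16 : ℝ) ^ (k + 1))) atTop atTop := by
    refine Real.tendsto_log_atTop.comp ?_
    exact (tendsto_pow_atTop_atTop_of_one_lt (by norm_num)).comp (tendsto_add_atTop_nat 1)
  have h2 : Tendsto (fun t : ℝ => (1 - β) * t - 4 * Real.sqrt t - β * Real.log 96) atTop atTop := by
    have h3 : Tendsto (fun t : ℝ => Real.sqrt t) atTop atTop := Real.tendsto_sqrt_atTop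
    have h4 : Tendsto (fun u : ℝ => u * ((1 - β) * u - 4)) atTop atTop := by
      refine tendsto_id.atTop_mul_atTop₀ ?_
      exact tendsto_atTop_add_const_right _ _
        (Tendsto.const_mul_atTop (by linarith [β_lt]) tendsto_id)
    have h5 := tendsto_atTop_add_const_right _ (-(β * Real.log 96)) (h4.comp h3)
    refine h5.congr' ?_
    filter_upwards [eventually_ge_atTop (0 : ℝ)] with t ht
    have h6 : Real.sqrt t * Real.sqrt t = t := Real.mul_self_sqrt ht
    simp only [Function.comp]
    have h7 : Real.sqrt t * ((1 - β) * Real.sqrt t - 4) =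
        (1 - β) * (Real.sqrt t * Real.sqrt t) - 4 * Real.sqrt t := by ring
    rw [h7, h6]
    ring
  exact h2.comp h1

/-- **There is an extension of `M₀` with a much denser set of P-positions.** -/
theorem result : ∃ R : Set (Finset ℕ), IsExtension R ∧
    Tendsto (fun x : ℕ => (count R x : ℝ) / (x : ℝ) ^ (Real.log 2 / Real.log 3)) atTop atTop := by
  refine ⟨R, ⟨extra A, R_spec.1, rfl⟩, ?_⟩
  rw [tendsto_atTop]
  intro C
  have h1 := (Real.tendsto_exp_atTop.comp tendsto_aux).eventually_ge_atTop C
  obtain ⟨K, hK⟩ := eventually_atTop.1 h1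
  filter_upwards [eventually_ge_atTop (6 * 16 ^ (K + 1))] with x hx
  -- choose the block
  obtain ⟨k, hk1, hk2, hk3⟩ : ∃ k, K ≤ k ∧ 6 * 16 ^ (k + 1) ≤ x ∧ x < 96 * 16 ^ (k + 1) := by
    have h6 : x / 6 ≠ 0 := by
      have : 0 < 16 ^ (K + 1) := by positivity
      omega
    have h7 : 16 ^ (K + 1) ≤ x / 6 := by omega
    have h8 : K + 1 ≤ Nat.log 16 (x / 6) := (Nat.le_log_iff_pow_le (by norm_num) h6).2 h7
    refine ⟨Nat.log 16 (x / 6) - 1, by omega, ?_, ?_⟩
    · have := Nat.pow_log_le_self 16 h6
      rw [show Nat.log 16 (x / 6) - 1 + 1 = Nat.log 16 (x / 6) by omega]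
      omega
    · have := Nat.lt_pow_succ_log_self (b := 16) (by norm_num) (x / 6)
      rw [show Nat.log 16 (x / 6) - 1 + 1 = Nat.log 16 (x / 6) by omega]
      rw [pow_succ] at this
      omega
  exact (hK k hk1).trans (growth k x hk2 hk3)

end Pool.Agent.Results.MP_c84e26_co.DenseExtension
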